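import Pool.Agent.AKZS_46_476_VZ.Lib
import Pool.Agent.AKZ.Split
import Pool.Agent.AKZ.Bridge

set_option autoImplicit false

namespace Pool.Agent.AKZS_46_476_VZ

open Pool.Agent.AKZ Pool.Agent.AKU

theorem l1 :
    ((allN D.nt fun p => D.chkN2 p) = true) ∧
    (D.chkLk (nat_lit 0) 0 = true) ∧
    (D.chkLk (nat_lit 1) 1 = true) ∧
    (D.chkLk (nat_lit 2) 2 = true) ∧
    (D.chkLk (nat_lit 3) 0 = true) ∧
    (D.chkLk (nat_lit 4) 1 = true) ∧
    (D.chkLk (nat_lit 5) 2 = true) ∧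
    ((allN D.nt fun p => D.chkM3 wvN w1N (nat_lit 5) (nat_lit 77) (nat_lit 1) (nat_lit 0) (nat_lit 0) 0 p) = true) ∧
    ((allN D.nt fun p => D.chkM3 wvN w1N (nat_lit 5) (nat_lit 77) (nat_lit 1) (nat_lit 0) (nat_lit 1) 1 p) = true) ∧
    ((allN D.nt fun p => D.chkM3 wvN w1N (nat_lit 5) (nat_lit 77) (nat_lit 1) (nat_lit 0) (nat_lit 2) 2 p) = true) :=
  ⟨by decide +kernel,
   by decide +kernel,
   by decide +kernel,
   by decide +kernel,
   by decide +kernel,
   by decide +kernel,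
   by decide +kernel,
   by decide +kernel,
   by decide +kernel,
   by decide +kernel⟩

end Pool.Agent.AKZS_46_476_VZ
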