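import Pool.Agent.AKZS_46_476_VZ.Lib
import Pool.Agent.AKZ.Split
import Pool.Agent.AKZ.Bridge

set_option autoImplicit false

namespace Pool.Agent.AKZS_46_476_VZ

open Pool.Agent.AKZ Pool.Agent.AKU

theorem l0 :
    (chkW D.T offw wn = true) ∧
    (chkWt64 D.T = true) ∧
    (D.rkB = true) ∧
    ((allN D.nt fun p => Nat.ble (Nat.add (D.orb p) 1) D.no) = true) ∧
    (Dt.loB D KK = true) ∧
    (Nat.ble 1 KK = true) ∧
    (chkTy64 Pool.Agent.AKG.TAB tcs = true) ∧
    (D.chkTc tcs = true) ∧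
    (D.chkWv64 = true) ∧
    (D.chkWy = true) ∧
    (D.TAB = Pool.Agent.AKG.TAB) ∧
    ((allN D.nt fun p => D.chkM2 p) = true) ∧
    (D.chkM1 wvN w1N (nat_lit 250) (nat_lit 12620) (nat_lit 12700) (nat_lit 5) (nat_lit 77) (nat_lit 1) (nat_lit 0) (nat_lit 0) (nat_lit 1) = true) ∧
    (D.chkM2w wvN w1N (nat_lit 5) (nat_lit 1) (nat_lit 0) = true) ∧
    (D.chkM2z wvN w1N (nat_lit 5) (nat_lit 0) (nat_lit 1) = true) :=
  ⟨by decide +kernel,
   by decide +kernel,
   by decide +kernel,
   by decide +kernel,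
   by decide +kernel,
   by decide +kernel,
   by decide +kernel,
   by decide +kernel,
   by decide +kernel,
   by decide +kernel,
   by decide +kernel,
   by decide +kernel,
   by decide +kernel,
   by decide +kernel,
   by decide +kernel⟩

end Pool.Agent.AKZS_46_476_VZ
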