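import Pool.Agent.AKZS_46_476_VZ.OkB
import Pool.Agent.AKZS_46_476_VZ.OkG
import Pool.Agent.AKZS_46_476_VZ.OkM
import Pool.Agent.AKZS_46_476_VZ.L1
import Pool.Agent.AKZS_46_476_VZ.L2
import Pool.Agent.AKZ.Split
import Pool.Agent.AKZ.Bridge

set_option autoImplicit false

namespace Pool.Agent.AKZS_46_476_VZ

open Pool.Agent.AKZ Pool.Agent.AKU

theorem bok : Dt.BOk D PL where
  rk := l0.2.2.1
  or := l0.2.2.2.1
  bl := bl

theorem rcok' (p : Nat) (hp : p < D.nt) : chkRec D.T (fun p => Pool.Agent.AKZ.lk D.tcP p) offa offb p = true := rcok p hp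

theorem linkT : LinkT D.T tcs := by
  obtain ⟨w, wt, rk, ors, lo, hK, ty, tc, wv, wy, hT, m2, c1, c2, c3⟩ := l0
  exact Dt.linkT_of (offa := offa) (offb := offb) hT rfl (chkTy_of ty) tc (Dt.chkWv_of wv) wy
    (fun p hp => allN_iff.1 m2 p hp) rcok'

theorem nb (s0 s1 : ℕ) : NB D.T s0 s1 := by
  obtain ⟨w, wt, rk, ors, lo, hK, ty, tc, wv, wy, hT, m2, c1, c2, c3⟩ := l0
  exact Dt.nb_of bok bq bz gok mok hK lo s0 s1

theorem mix : Mix3 D.T tcs (wgt wvN) (wgt w1N) 250 12620 12700 5 77 1 0 0 1 (cf 1 0) (cf 0 1) := by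
  obtain ⟨w, wt, rk, ors, lo, hK, ty, tc, wv, wy, hT, m2, c1, c2, c3⟩ := l0
  obtain ⟨n2, k0, k1, k2, k3, k4, k5, e0, e1, e2⟩ := l1
  obtain ⟨e3, e4, e5⟩ := l2
  refine Dt.mix3_of (offa := offa) (offb := offb) hT rfl tc rcok' c1 c2 c3 (fun p hp => allN_iff.1 n2 p hp) ?_ ?_
  · intro k hk
    have hk6 : k < 6 := hk
    interval_cases k
    · exact k0
    · exact k1
    · exact k2
    · exact k3
    · exact k4
    · exact k5
  · intro k hk p hp
    have hk6 : k < 6 := hk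
    interval_cases k
    · exact allN_iff.1 e0 p hp
    · exact allN_iff.1 e1 p hp
    · exact allN_iff.1 e2 p hp
    · exact allN_iff.1 e3 p hp
    · exact allN_iff.1 e4 p hp
    · exact allN_iff.1 e5 p hp

/-- the strip under the condition on the second weight -/
theorem dec2 : Pool.Agent.AKX.Dec fun S => Pool.Agent.AKX.Btw (Pool.Agent.AKX.wvf wvN) 250 12620 12700 S ∧
    Pool.Agent.AKX.Low (Pool.Agent.AKX.wvf w1N) 5 77 S :=
  strip_x (Dt.btw_low3_of nb mix linkT)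

end Pool.Agent.AKZS_46_476_VZ
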