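import Pool.Agent.AKZS_46_476_VZ.Dat
import Pool.Agent.AKZ.Split

set_option autoImplicit false

namespace Pool.Agent.AKZS_46_476_VZ

open Pool.Agent.AKZ Pool.Agent.AKU

noncomputable def G : List Sy := [x0.sy, x1.sy, x2.sy, x3.sy, x4.sy]

end Pool.Agent.AKZS_46_476_VZ
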